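import Pool.Agent.H.MP_a2f955_an.D

open MeasureTheory Pool.Agent.H.MP_a2f955_an
open scoped ComplexConjugate

namespace Pool.Agent.Results.MP_54c4ce_an.Main

theorem result (A : ENNReal) (_hA : 0 < A) (f : ℝ → ℂ) (hR : InR A f)
    (hH : ∀ l ∈ Iv A, f (-l) = conj (f l)) (hm : AEMeasurable f (volume.restrict (Iv A))) :
    ∃ fp fm : ℝ → ℂ, InP A fp ∧ InP A fm ∧ AEMeasurable fp (volume.restrict (Iv A)) ∧
      AEMeasurable fm (volume.restrict (Iv A)) ∧ (∀ l ∈ Iv A, f l = fp l - fm l) ∧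
      (nrm A f : ℂ) = fp 0 + fm 0 :=
  jordan hR hH hm

end Pool.Agent.Results.MP_54c4ce_an.Main
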